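import Pool.Agent.Helper934.AA3

set_option autoImplicit false

/-!
# MP_3a3582_co: `τ(G) = ⌊log₂ |G|⌋` for almost all noncyclic finite abelian groups

Definitions used in the statement (from `Pool.Agent.Helper934`):
* `Dissociated A`, `tau G` : dissociated sets and `τ(G)`;
* `IsTypeList L` : `L = [n_r, …, n_1]` has all entries `≥ 2` and every entry is divisible by all
  later ones (a type, listed in decreasing order);
* `Grp L` : the group `∏ ℤ_{n_i}`.
-/

open Filter Topology
open Pool.Agent.Results.MP_3a3582_co.BoundedRank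
open Pool.Agent.Results.MP_3a3582_co.AlmostAll

namespace Pool.Agent.Results.MP_3a3582_co.AlmostAllTypes

/-- For every `x` there are finitely many, and at least `⌊x/4⌋`, types of noncyclic finite abelian
groups of order at most `x`, and the proportion of those types among them whose group `G` violates
`τ(G) = ⌊log₂ |G|⌋` tends to `0` as `x → ∞`. -/
theorem result :
    (∀ x : ℕ, {L : List ℕ | 2 ≤ L.length ∧ IsTypeList L ∧ L.prod ≤ x}.Finite ∧
      x / 4 ≤ {L : List ℕ | 2 ≤ L.length ∧ IsTypeList L ∧ L.prod ≤ x}.ncard) ∧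
    Tendsto (fun x : ℕ =>
      ({L : List ℕ | (2 ≤ L.length ∧ IsTypeList L ∧ L.prod ≤ x) ∧
          tau (Grp L) ≠ Nat.log 2 (Nat.card (Grp L))}.ncard : ℝ) /
        ({L : List ℕ | 2 ≤ L.length ∧ IsTypeList L ∧ L.prod ≤ x}.ncard : ℝ)) atTop (𝓝 0) := by
  refine ⟨fun x => ⟨Types_finite x, types_lower x⟩, ?_⟩
  have h := density
  refine h.congr fun x => ?_
  have hset : Exceptions x = {L : List ℕ | (2 ≤ L.length ∧ IsTypeList L ∧ L.prod ≤ x) ∧
          tau (Grp L) ≠ Nat.log 2 (Nat.card (Grp L))} := by
    ext L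
    have hc : Nat.card (Grp L) = L.prod := by
      rw [Nat.card_pi]
      simp only [Nat.card_zmod]
      rw [← List.prod_ofFn, List.ofFn_get]
    simp only [Exceptions, Types, Set.mem_setOf_eq, hc]
  rw [hset]
  rfl

end Pool.Agent.Results.MP_3a3582_co.AlmostAllTypes
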